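import Pool.Agent.Helper47.Ci.COne

/-!
# Every `C_1` field is strongly `C_1`

The statement of the problem is proved here for `i ≤ 1`, for all fields: if every form of degree
`d > 0` in `n > d ^ i` variables over `K` has a nontrivial zero, then any forms `f_1, …, f_r` of
degrees `d_1, …, d_r > 0` in `n > ∑ d_j ^ i` variables over `K` have a common nontrivial zero.
-/

set_option autoImplicit false

namespace Pool.Agent.Results.MP_76ffd5_al.COneStronglyCOne

/-- For `i ≤ 1` and every field `K`: if `K` is `C_i`, then `K` is strongly `C_i`. -/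
theorem result (K : Type) [Field K] (i : ℕ) (hi : i ≤ 1)
    (hK : ∀ (n d : ℕ) (f : MvPolynomial (Fin n) K), 0 < d → f.IsHomogeneous d → d ^ i < n →
      ∃ x : Fin n → K, x ≠ 0 ∧ MvPolynomial.eval x f = 0)
    (n r : ℕ) (d : Fin r → ℕ) (f : Fin r → MvPolynomial (Fin n) K) (hd : ∀ j, 0 < d j)
    (hf : ∀ j, (f j).IsHomogeneous (d j)) (hn : ∑ j, d j ^ i < n) :
    ∃ x : Fin n → K, x ≠ 0 ∧ ∀ j, MvPolynomial.eval x (f j) = 0 := by
  rcases Nat.le_one_iff_eq_zero_or_eq_one.1 hi with rfl | rfl
  · exact Helper47.Ci.strongly_zero hK f d hd hf (by rw [Fintype.card_fin]; exact hn)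
  · exact Helper47.Ci.strongly_one hK f d hd hf (by rw [Fintype.card_fin]; exact hn)

end Pool.Agent.Results.MP_76ffd5_al.COneStronglyCOne
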