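import Pool.Agent.Helper47.Ci.COne

/-!
# One normic form of prime power degree makes a `C_i` field strongly `C_i`

Lang (1952) proved the property `(*)_i` for systems of forms of arbitrary degrees over a `C_i`
field which has normic forms of order `i` of every degree.  One normic form of order `i`, of prime
power degree `q > 1`, is already enough.
-/

set_option autoImplicit false

namespace Pool.Agent.Results.MP_76ffd5_al.OneNormicForm

/-- Let `K` be a `C_i` field, `i ≥ 1`, and suppose that for some prime power `q = p ^ a > 1` there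
is a form `N` of degree `q` in `q ^ i` variables over `K` which has only the trivial zero.  Then
any forms `f_1, …, f_r` of degrees `d_1, …, d_r > 0` in `n > ∑ d_j ^ i` variables over `K` have a
common nontrivial zero in `K ^ n`. -/
theorem result (K : Type) [Field K] (i : ℕ) (hi : 0 < i)
    (hK : ∀ (n d : ℕ) (f : MvPolynomial (Fin n) K), 0 < d → f.IsHomogeneous d → d ^ i < n →
      ∃ x : Fin n → K, x ≠ 0 ∧ MvPolynomial.eval x f = 0)
    (p a : ℕ) (hp : p.Prime) (ha : 0 < a) (N : MvPolynomial (Fin ((p ^ a) ^ i)) K)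
    (hN : N.IsHomogeneous (p ^ a)) (hN0 : ∀ y, MvPolynomial.eval y N = 0 → y = 0)
    (n r : ℕ) (d : Fin r → ℕ) (f : Fin r → MvPolynomial (Fin n) K) (hd : ∀ j, 0 < d j)
    (hf : ∀ j, (f j).IsHomogeneous (d j)) (hn : ∑ j, d j ^ i < n) :
    ∃ x : Fin n → K, x ≠ 0 ∧ ∀ j, MvPolynomial.eval x (f j) = 0 :=
  Helper47.Ci.strongly_of_prime_pow hi hK hp ha ⟨N, hN, hN0⟩ f d hd hf
    (by rw [Fintype.card_fin]; exact hn)

end Pool.Agent.Results.MP_76ffd5_al.OneNormicForm
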